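import Pool.Agent.Helper68.SK.Goals

/-!
Project SK, packet EQ: the allowed good pairs at two refined bases.
-/

set_option autoImplicit false

namespace Pool.Agent.Helper86.SK

open Finset Pool.Agent.Helper68.SK

theorem δ_apply {D : Type} [DecidableEq D] (a x : D) : δ a x = if x = a then 1 else 0 := by
  unfold Pool.Agent.Helper68.SK.δ
  rw [Pi.single_apply]

section core

variable {D : Type} [DecidableEq D] {S : Set (D → ℤ)} {z z' : D → ℤ} {N : D → Prop}

theorem stp (hS : Exch S) (hzz : ∀ a, ¬ N a → z a = z' a)
    (hN : ∀ n d, N n → z + δ n + δ d ∉ S) {a b : D} (hab : z' + δ a + δ b ∈ S) (c d : D)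
    (hcd : z + δ c + δ d ∈ S)
    (h : ((if c = a then 1 else 0) + (if c = b then 1 else 0) : ℤ) <
      1 + (if c = d then 1 else 0)) :
    ∃ y, ((if y = c then 1 else 0) + (if y = d then 1 else 0) : ℤ) <
      (if y = a then 1 else 0) + (if y = b then 1 else 0) ∧ z + δ y + δ d ∈ S := by
  have hc : ¬ N c := fun hc => hN c d hc hcd
  have hzc := hzz c hc
  obtain ⟨y, hy, hm⟩ := hS _ hcd _ hab c (by
    simp only [Pi.add_apply, δ_apply, if_true]
    linarith)
  have he : z + δ c + δ d - δ c + δ y = z + δ y + δ d := by abel
  rw [he] at hm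
  have hyN : ¬ N y := fun h => hN y d h hm
  have hzy := hzz y hyN
  refine ⟨y, ?_, hm⟩
  simp only [Pi.add_apply, δ_apply] at hy
  linarith

theorem stL (hS : Exch S) (hzz : ∀ a, ¬ N a → z a = z' a)
    (hN : ∀ n d, N n → z + δ n + δ d ∉ S) {a b : D} (hab : z' + δ a + δ b ∈ S) (d : D)
    (hd : z + δ a + δ d ∈ S) : z + δ a + δ b ∈ S := by
  by_cases hdb : d = b
  · rw [← hdb]
    exact hd
  · have hd' : z + δ d + δ a ∈ S := by
      rw [add_right_comm]
      exact hd
    obtain ⟨y, hy, hm⟩ := stp hS hzz hN hab d a hd' (by
      rw [if_neg hdb]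
      linarith)
    have hyb : y = b := by
      by_contra h
      rw [if_neg h] at hy
      have : (0 : ℤ) ≤ if y = d then 1 else 0 := by split_ifs <;> norm_num
      linarith
    rw [← hyb, add_right_comm]
    exact hm

theorem core (hS : Exch S) (hzz : ∀ a, ¬ N a → z a = z' a)
    (hN : ∀ n d, N n → z + δ n + δ d ∉ S) {a b : D} (hab : z' + δ a + δ b ∈ S) (c d : D)
    (hcd : z + δ c + δ d ∈ S) : z + δ a + δ b ∈ S := by
  have hba : z' + δ b + δ a ∈ S := by
    rw [add_right_comm]
    exact hab
  have hL := stL hS hzz hN hab
  have hL' : ∀ d, z + δ b + δ d ∈ S → z + δ a + δ b ∈ S := by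
    intro d hd
    have := stL hS hzz hN hba d hd
    rw [add_right_comm]
    exact this
  by_cases hca : c = a
  · rw [hca] at hcd
    exact hL d hcd
  by_cases hcb : c = b
  · rw [hcb] at hcd
    exact hL' d hcd
  obtain ⟨y, hy, hm⟩ := stp hS hzz hN hab c d hcd (by
    rw [if_neg hca, if_neg hcb]
    have : (0 : ℤ) ≤ if c = d then 1 else 0 := by split_ifs <;> norm_num
    linarith)
  have h1 : (0 : ℤ) ≤ if y = c then 1 else 0 := by split_ifs <;> norm_num
  have h2 : (0 : ℤ) ≤ if y = d then 1 else 0 := by split_ifs <;> norm_num
  by_cases hya : y = a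
  · rw [hya] at hm
    exact hL d hm
  by_cases hyb : y = b
  · rw [hyb] at hm
    exact hL' d hm
  rw [if_neg hya, if_neg hyb] at hy
  linarith

end core

section

variable {V E P : Type} [Fintype V] [DecidableEq V] [Fintype E] [DecidableEq E] [Fintype P]
  [DecidableEq P]

/-- indicator of `hit` -/
def hI (g : E → V × V) (U : Finset V) (a : V ⊕ E) : ℤ := if hit g U a then 1 else 0

theorem hI_nonneg (g : E → V × V) (U : Finset V) (a : V ⊕ E) : 0 ≤ hI g U a := by
  unfold hI
  split_ifs <;> norm_num

theorem hI_le (g : E → V × V) (U : Finset V) (a : V ⊕ E) : hI g U a ≤ 1 := by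
  unfold hI
  split_ifs <;> norm_num

theorem sum_delta (z : V ⊕ E → ℤ) (a b : V ⊕ E) :
    ∑ x, (z + δ a + δ b) x = ∑ x, z x + 2 := by
  simp only [Pi.add_apply, Finset.sum_add_distrib, δ_apply, Finset.sum_ite_eq',
    Finset.mem_univ, if_true]
  ring

theorem mass_dd (hsub : GoalSub) (g : E → V × V) (z : V ⊕ E → ℤ) (a b : V ⊕ E) (U : Finset V) :
    mass g (z + δ a + δ b) U = mass g z U + hI g U a + hI g U b := by
  have h := (hsub.1 V E g (z + δ a)).2.2.2.1 U b
  have h' := (hsub.1 V E g z).2.2.2.1 U a
  rw [h, h']
  rfl

theorem okp_iff (hsub : GoalSub) (g : E → V × V) {z : V ⊕ E → ℤ} (hz : ∑ a, z a = -1)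
    (a b : V ⊕ E) : okp g z a b ↔ ∀ U : Finset V, U.Nonempty → U ≠ univ →
      mass g z U + hI g U a + hI g U b ≤ 0 := by
  constructor
  · intro h U h1 h2
    have h3 := h.2 U h1 h2
    rw [mass_dd hsub] at h3
    exact h3
  · intro h
    refine ⟨?_, fun U h1 h2 => ?_⟩
    · rw [sum_delta, hz]
      norm_num
    · rw [mass_dd hsub]
      exact h U h1 h2

theorem push_inr (c : V → P) (z : V ⊕ E → ℤ) (e : E) : push (col E c) z (.inr e) = z (.inr e) := by
  unfold push
  rw [Finset.sum_eq_single (Sum.inr e)]
  · exact if_pos rfl
  · rintro (v | f) _ hne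
    · rw [if_neg (by simp [col])]
    · rw [if_neg]
      intro h
      apply hne
      have h2 : (Sum.inr f : P ⊕ E) = Sum.inr e := h
      rw [Sum.inr.inj h2]
  · intro h
    exact absurd (Finset.mem_univ _) h

theorem push_triv (c : V → P) (z : V ⊕ E → ℤ) (v : V) (hv : ∀ v', v ≠ v' → c v ≠ c v') :
    push (col E c) z (.inl (c v)) = z (.inl v) := by
  unfold push
  rw [Finset.sum_eq_single (Sum.inl v)]
  · exact if_pos rfl
  · rintro (v' | f) _ hne
    · rw [if_neg]
      intro h
      have h2 : (Sum.inl (c v') : P ⊕ E) = Sum.inl (c v) := h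
      have h3 := Sum.inl.inj h2
      apply hv v' _ h3.symm
      intro h4
      apply hne
      rw [h4]
    · rw [if_neg (by simp [col])]
  · intro h
    exact absurd (Finset.mem_univ _) h

/-- vertices in nontrivial classes -/
def NT (E : Type) (c : V → P) : V ⊕ E → Prop
  | .inl v => ∃ v', v ≠ v' ∧ c v = c v'
  | .inr _ => False

/-- good pair of allowed directions, with the point in `SS` -/
theorem exists_SS (hsub : GoalSub) (g : E → V × V) {z : V ⊕ E → ℤ} (hz : ∑ a, z a = -1)
    (hn : ∀ e, z (.inr e) ≤ 0) (h : ∃ a b, al z a ∧ al z b ∧ okp g z a b) :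
    ∃ a b, z + δ a + δ b ∈ SS g := by
  obtain ⟨a, b, ha, hb, hab⟩ := h
  by_cases h1 : ∀ e, (z + δ a + δ b) (.inr e) ≤ 0
  · exact ⟨a, b, hab, h1⟩
  · push Not at h1
    obtain ⟨e, he⟩ := h1
    simp only [Pi.add_apply, δ_apply] at he
    have hne := hn e
    have key : a = .inr e ∧ b = .inr e ∧ z (.inr e) = -1 := by
      by_cases h2 : (Sum.inr e : V ⊕ E) = a
      · subst h2
        have h3 : z (.inr e) ≤ -1 := ha
        by_cases h4 : (Sum.inr e : V ⊕ E) = b
        · subst h4
          rw [if_pos rfl] at he
          exact ⟨rfl, rfl, by linarith⟩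
        · rw [if_pos rfl, if_neg h4] at he
          linarith
      · rw [if_neg h2] at he
        by_cases h4 : (Sum.inr e : V ⊕ E) = b
        · subst h4
          have h3 : z (.inr e) ≤ -1 := hb
          rw [if_pos rfl] at he
          linarith
        · rw [if_neg h4] at he
          linarith
    obtain ⟨rfl, rfl, h3⟩ := key
    refine ⟨.inr e, .inl (g e).1, ?_, ?_⟩
    · have h4 : okp g z (.inr e) (.inl (g e).1) := by
        rw [okp_iff hsub g hz] at hab ⊢
        intro U hU hU'
        have h5 := hab U hU hU'
        have h6 : hI g U (.inl (g e).1) ≤ hI g U (.inr e) := by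
          unfold hI
          by_cases h7 : (g e).1 ∈ U
          · have h8 : hit g U (.inr e) := Or.inl h7
            have h9 : hit g U (.inl (g e).1) := h7
            rw [if_pos h8, if_pos h9]
          · have h9 : ¬ hit g U (.inl (g e).1) := h7
            rw [if_neg h9]
            split_ifs <;> norm_num
        linarith
      exact h4
    · intro f
      simp only [Pi.add_apply, δ_apply]
      have hnf := hn f
      by_cases h4 : (Sum.inr f : V ⊕ E) = Sum.inr e
      · rw [if_pos h4, if_neg (by simp)]
        have h5 : f = e := Sum.inr.inj h4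
        rw [h5, h3]
        norm_num
      · rw [if_neg h4, if_neg (by simp)]
        linarith

end

/-- Packet EQ. -/
theorem sk_eq : Pool.Agent.Helper68.SK.GoalEq := by
  intro hsub hexc V E P _ _ _ _ _ _ g c z z' hz hn hp hl h1 h2 a b ha hb hab1 hab
  -- elementary consequences
  have hedge : ∀ e, z' (.inr e) = z (.inr e) := by
    intro e
    have := congrFun hp (.inr e)
    rw [push_inr, push_inr] at this
    exact this.symm
  have hz' : ∑ a, z' a = -1 := by
    have h3 := (hsub.2 (V ⊕ E) (P ⊕ E) (col E c)).1
    rw [← h3 z', ← hp, h3 z, hz]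
  have hn' : ∀ e, z' (.inr e) ≤ 0 := fun e => by rw [hedge]; exact hn e
  have hal : ∀ a, al z' a ↔ al z a := by
    rintro (v | e)
    · exact Iff.rfl
    · show z' (.inr e) ≤ -1 ↔ z (.inr e) ≤ -1
      rw [hedge]
  have hzz : ∀ a, ¬ NT E c a → z a = z' a := by
    rintro (v | e) h
    · have hv : ∀ v', v ≠ v' → c v ≠ c v' := fun v' h3 h4 => h ⟨v', h3, h4⟩
      have := congrFun hp (.inl (c v))
      rw [push_triv c z v hv, push_triv c z' v hv] at this
      exact this
    · exact (hedge e).symm
  have hN : ∀ n d, NT E c n → z + δ n + δ d ∉ SS g := by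
    rintro (v | e) d hnt hm
    · obtain ⟨v', hv, hv'⟩ := hnt
      have hd : al z d := by
        rcases d with u | f
        · trivial
        · have := hm.2 f
          simp only [Pi.add_apply, δ_apply, if_true] at this
          rw [if_neg (by simp)] at this
          show z (.inr f) ≤ -1
          linarith
      exact (hl v v' hv hv' d hd).1 hm.1
    · exact hnt
  obtain ⟨c1, d1, hcd⟩ := exists_SS hsub g hz hn h1
  by_cases hS : ∀ e, (z' + δ a + δ b) (.inr e) ≤ 0
  · exact (core (hexc hsub V E g) hzz hN (a := a) (b := b) ⟨hab, hS⟩ c1 d1 hcd).1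
  · -- the pair is a doubled edge of size one
    push Not at hS
    obtain ⟨e, he⟩ := hS
    simp only [Pi.add_apply, δ_apply] at he
    have hne := hn' e
    have key : a = .inr e ∧ b = .inr e ∧ z (.inr e) = -1 := by
      rw [hedge] at he hne
      by_cases h3 : (Sum.inr e : V ⊕ E) = a
      · subst h3
        have h3 : z (.inr e) ≤ -1 := ha
        by_cases h4 : (Sum.inr e : V ⊕ E) = b
        · subst h4
          rw [if_pos rfl] at he
          exact ⟨rfl, rfl, by linarith⟩
        · rw [if_pos rfl, if_neg h4] at he
          linarith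
      · rw [if_neg h3] at he
        by_cases h4 : (Sum.inr e : V ⊕ E) = b
        · subst h4
          have h3 : z (.inr e) ≤ -1 := hb
          rw [if_pos rfl] at he
          linarith
        · rw [if_neg h4] at he
          linarith
    obtain ⟨rfl, rfl, hze⟩ := key
    rw [okp_iff hsub g hz'] at hab
    rw [okp_iff hsub g hz]
    -- the tight sets
    obtain ⟨ca, cb, -, -, hgood⟩ := h1
    rw [okp_iff hsub g hz] at hgood
    have hle : ∀ U : Finset V, U ≠ univ → mass g z U ≤ 0 := by
      intro U hU
      rcases U.eq_empty_or_nonempty with h3 | h3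
      · rw [h3, (hsub.1 V E g z).2.2.2.2.2.1]
      · have := hgood U h3 hU
        have := hI_nonneg g U ca
        have := hI_nonneg g U cb
        linarith
    have hle' : ∀ U : Finset V, U ≠ univ → mass g z' U ≤ 0 := by
      intro U hU
      rcases U.eq_empty_or_nonempty with h3 | h3
      · rw [h3, (hsub.1 V E g z').2.2.2.2.2.1]
      · have := hab U h3 hU
        have := hI_nonneg g U (.inr e)
        linarith
    have hTne : ∀ U : Finset V, ¬ hit g U (.inr e) → U ≠ univ := by
      intro U h3 h4
      apply h3
      rw [h4]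
      exact Or.inl (Finset.mem_univ _)
    have hU : ∀ v, ∃ U : Finset V, ¬ hit g U (.inr e) ∧ 0 ≤ mass g z' U ∧
        (NT E c (.inl v) → v ∈ U) := by
      intro v
      by_cases hv : NT E c (.inl v)
      · obtain ⟨v', hv1, hv2⟩ := hv
        have h3 := (hl v v' hv1 hv2 (.inr e) ha).2
        rw [okp_iff hsub g hz'] at h3
        push Not at h3
        obtain ⟨U, hU1, hU2, hU3⟩ := h3
        have h4 := hab U hU1 hU2
        have h5 := hI_nonneg g U (.inr e)
        have h6 := hI_le g U (.inl v)
        have h7 : ¬ hit g U (.inr e) := by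
          intro h
          have : hI g U (.inr e) = 1 := if_pos h
          linarith
        have h8 : hI g U (.inr e) = 0 := if_neg h7
        have h9 : v ∈ U := by
          by_contra h
          have : hI g U (.inl v) = 0 := if_neg h
          linarith
        refine ⟨U, h7, ?_, fun _ => h9⟩
        linarith
      · refine ⟨∅, ?_, ?_, fun h => absurd h hv⟩
        · rintro (h | h) <;> simp at h
        · rw [(hsub.1 V E g z').2.2.2.2.2.1]
    choose F hF1 hF2 hF3 using hU
    have hT : ¬ hit g (univ.sup F) (.inr e) ∧ 0 ≤ mass g z' (univ.sup F) := by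
      apply Finset.sup_induction (p := fun U : Finset V => ¬ hit g U (.inr e) ∧ 0 ≤ mass g z' U)
      · refine ⟨?_, ?_⟩
        · rintro (h | h) <;> simp at h
        · rw [Finset.bot_eq_empty, (hsub.1 V E g z').2.2.2.2.2.1]
      · intro U1 hU1 U2 hU2
        have h3 : ¬ hit g (U1 ⊔ U2) (.inr e) := by
          intro h
          rcases h with h | h
          · rcases Finset.mem_union.1 h with h | h
            · exact hU1.1 (Or.inl h)
            · exact hU2.1 (Or.inl h)
          · rcases Finset.mem_union.1 h with h | h
            · exact hU1.1 (Or.inr h)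
            · exact hU2.1 (Or.inr h)
        refine ⟨h3, ?_⟩
        have h4 := (hsub.1 V E g z').2.1 U1 U2 hn'
        have h5 : mass g z' (U1 ∩ U2) ≤ 0 := by
          apply hle'
          intro h
          apply hTne U1 hU1.1
          exact Finset.eq_univ_of_forall (fun x =>
            (Finset.mem_inter.1 (h ▸ Finset.mem_univ x)).1)
        have h6 := hU1.2
        have h7 := hU2.2
        rw [Finset.sup_eq_union]
        linarith
      · intro v _
        exact ⟨hF1 v, hF2 v⟩
    set T := univ.sup F with hTdef
    obtain ⟨hT1, hT2⟩ := hT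
    have hT3 : ∀ v, NT E c (.inl v) → v ∈ T := by
      intro v hv
      exact (Finset.le_sup (f := F) (Finset.mem_univ v)) (hF3 v hv)
    have hmass : ∀ X : Finset V, T ⊆ X → mass g z X = mass g z' X := by
      intro X hX
      have h3 : ∀ x : V ⊕ E → ℤ, mass g x X = ∑ a, x a -
          ∑ a, if hit g X a then 0 else x a := by
        intro x
        unfold mass
        rw [← Finset.sum_sub_distrib]
        refine Finset.sum_congr rfl (fun a _ => ?_)
        split_ifs <;> ring
      rw [h3 z, h3 z', hz, hz']
      congr 1
      refine Finset.sum_congr rfl (fun a _ => ?_)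
      by_cases h4 : hit g X a
      · rw [if_pos h4, if_pos h4]
      · rw [if_neg h4, if_neg h4]
        apply hzz
        rcases a with v | f
        · intro h5
          exact h4 (hX (hT3 v h5))
        · exact fun h => h
    intro U hU1 hU2
    by_contra hcon
    push Not at hcon
    have hTT : mass g z T = 0 := by
      rw [hmass T (Finset.Subset.refl _)]
      exact le_antisymm (hle' T (hTne T hT1)) hT2
    have hm0 := hle U hU2
    have hit1 : hit g U (.inr e) := by
      by_contra h
      have : hI g U (.inr e) = 0 := if_neg h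
      linarith
    have hI1 : hI g U (.inr e) = 1 := if_pos hit1
    rw [hI1] at hcon
    have hs := (hsub.1 V E g z).2.1 U T hn
    have hint : mass g z (U ∩ T) ≤ 0 := by
      apply hle
      intro h
      apply hU2
      exact Finset.eq_univ_of_forall (fun x => (Finset.mem_inter.1 (h ▸ Finset.mem_univ x)).1)
    by_cases hun : U ∪ T = univ
    · have h3 : mass g z (U ∪ T) = -1 := by
        rw [hun, (hsub.1 V E g z).2.2.2.2.2.2, hz]
      have h4 : ∀ x : V ⊕ E, ¬ hit g T x → hI g U x = 1 := by
        intro x hx
        apply if_pos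
        rcases x with v | f
        · have hv : v ∈ U ∪ T := by
            rw [hun]
            exact Finset.mem_univ v
          rcases Finset.mem_union.1 hv with h | h
          · exact h
          · exact absurd h hx
        · have hv : (g f).1 ∈ U ∪ T := by
            rw [hun]
            exact Finset.mem_univ _
          rcases Finset.mem_union.1 hv with h | h
          · exact Or.inl h
          · exact absurd (Or.inl h) hx
      have h5 : ¬ hit g T ca ∧ ¬ hit g T cb := by
        rcases T.eq_empty_or_nonempty with h6 | h6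
        · rw [h6]
          constructor
          · rcases ca with v | f
            · exact Finset.notMem_empty v
            · rintro (h | h) <;> simp at h
          · rcases cb with v | f
            · exact Finset.notMem_empty v
            · rintro (h | h) <;> simp at h
        · have h7 := hgood T h6 (hTne T hT1)
          rw [hTT] at h7
          have h8 := hI_nonneg g T ca
          have h9 := hI_nonneg g T cb
          constructor
          · intro h
            have : hI g T ca = 1 := if_pos h
            linarith
          · intro h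
            have : hI g T cb = 1 := if_pos h
            linarith
      have h6 := hgood U hU1 hU2
      rw [h4 ca h5.1, h4 cb h5.2] at h6
      linarith
    · have h3 := hmass (U ∪ T) Finset.subset_union_right
      have h4 := hab (U ∪ T) (hU1.mono Finset.subset_union_left) hun
      have h5 : hI g (U ∪ T) (.inr e) = 1 := by
        apply if_pos
        rcases hit1 with h | h
        · exact Or.inl (Finset.mem_union_left _ h)
        · exact Or.inr (Finset.mem_union_left _ h)
      rw [h5, ← h3] at h4
      linarith

end Pool.Agent.Helper86.SK
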